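import Mathlib

set_option autoImplicit false

namespace Pool.Agent.Sect

open MeasureTheory Set

abbrev E := EuclideanSpace ℝ (Fin 6)

lemma vol_box (a b : Fin 6 → ℝ) :
    volume {x : E | ∀ i, a i ≤ x i ∧ x i ≤ b i} = ∏ i, ENNReal.ofReal (b i - a i) := by
  have h := (PiLp.volume_preserving_ofLp (Fin 6)).measure_preimage (s := Icc a b)
    (measurableSet_Icc.nullMeasurableSet)
  rw [Real.volume_Icc_pi] at h
  rw [← h]
  congr 1
  ext x
  simp [Pi.le_def, forall_and]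

/-- the body -/
def S (β : ℝ) : Set E :=
  {x | |x 0| ≤ 1 ∧ |x 1| + (x 2 ^ 2 + x 3 ^ 2 + x 4 ^ 2 + x 5 ^ 2) ≤ 1 + β * x 0 ^ 2}

lemma S_bdd {β : ℝ} (h0 : 0 ≤ β) (h1 : β ≤ 1) {x : E} (hx : x ∈ S β) : ∀ i, |x i| ≤ 2 := by
  obtain ⟨hx0, hx1⟩ := hx
  have h2 : x 0 ^ 2 ≤ 1 := by
    rw [← sq_abs]
    have := abs_nonneg (x 0)
    nlinarith
  have h3 : β * x 0 ^ 2 ≤ 1 := by nlinarith [sq_nonneg (x 0)]
  have h4 := abs_nonneg (x 1)
  have aux : ∀ y : ℝ, y ^ 2 ≤ 2 → |y| ≤ 2 := by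
    intro y hy
    apply abs_le.mpr
    constructor <;> nlinarith [sq_nonneg (y - 2), sq_nonneg (y + 2)]
  intro i
  fin_cases i
  · show |x 0| ≤ 2
    linarith
  · show |x 1| ≤ 2
    nlinarith [sq_nonneg (x 2), sq_nonneg (x 3), sq_nonneg (x 4), sq_nonneg (x 5)]
  · show |x 2| ≤ 2
    apply aux
    nlinarith [sq_nonneg (x 2), sq_nonneg (x 3), sq_nonneg (x 4), sq_nonneg (x 5)]
  · show |x 3| ≤ 2
    apply aux
    nlinarith [sq_nonneg (x 2), sq_nonneg (x 3), sq_nonneg (x 4), sq_nonneg (x 5)]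
  · show |x 4| ≤ 2
    apply aux
    nlinarith [sq_nonneg (x 2), sq_nonneg (x 3), sq_nonneg (x 4), sq_nonneg (x 5)]
  · show |x 5| ≤ 2
    apply aux
    nlinarith [sq_nonneg (x 2), sq_nonneg (x 3), sq_nonneg (x 4), sq_nonneg (x 5)]

lemma S_closed (β : ℝ) : IsClosed (S β) := by
  have h1 : IsClosed {x : E | |x 0| ≤ 1} := isClosed_le (by fun_prop) (by fun_prop)
  have h2 : IsClosed {x : E | |x 1| + (x 2 ^ 2 + x 3 ^ 2 + x 4 ^ 2 + x 5 ^ 2) ≤
      1 + β * x 0 ^ 2} := isClosed_le (by fun_prop) (by fun_prop)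
  exact h1.inter h2

lemma S_compact {β : ℝ} (h0 : 0 ≤ β) (h1 : β ≤ 1) : IsCompact (S β) := by
  apply Metric.isCompact_of_isClosed_isBounded (S_closed β)
  rw [isBounded_iff_forall_norm_le]
  refine ⟨5, fun x hx => ?_⟩
  rw [EuclideanSpace.norm_eq]
  apply Real.sqrt_le_iff.mpr
  constructor
  · norm_num
  · have h := S_bdd h0 h1 hx
    have : ∀ i, ‖x i‖ ^ 2 ≤ 4 := by
      intro i
      rw [Real.norm_eq_abs]
      have := h i
      have := abs_nonneg (x i)
      nlinarith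
    calc ∑ i, ‖x i‖ ^ 2 ≤ ∑ i : Fin 6, (4:ℝ) := Finset.sum_le_sum fun i _ => this i
      _ ≤ 5 ^ 2 := by norm_num

lemma S_symm (β : ℝ) (x : E) : -x ∈ S β ↔ x ∈ S β := by
  simp [S]

lemma S_centroid (β : ℝ) : (∫ x in S β, x ∂(volume : Measure E)) = 0 := by
  rw [← integral_indicator (S_closed β).measurableSet]
  have h := integral_neg_eq_self (fun x : E => (S β).indicator (fun x => x) x) volume
  have h2 : ∀ x : E, (S β).indicator (fun x => x) (-x) = - (S β).indicator (fun x => x) x := by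
    intro x
    by_cases hx : x ∈ S β
    · rw [indicator_of_mem ((S_symm β x).mpr hx), indicator_of_mem hx]
    · rw [indicator_of_notMem (fun h => hx ((S_symm β x).mp h)), indicator_of_notMem hx, neg_zero]
  simp only [h2] at h
  rw [integral_neg] at h
  have : (2:ℝ) • ∫ x, (S β).indicator (fun x => x) x ∂(volume : Measure E) = 0 := by
    rw [two_smul]
    nth_rewrite 1 [← h]
    simp
  simpa using this

/-- sections without a thin vector are convex -/
lemma convex_section {β : ℝ} (H : Submodule ℝ E)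
    (hH : ∀ v ∈ H, β * v 0 ^ 2 ≤ v 2 ^ 2 + v 3 ^ 2 + v 4 ^ 2 + v 5 ^ 2) :
    Convex ℝ (S β ∩ (H : Set E)) := by
  intro u hu w hw a b ha hb hab
  refine ⟨?_, H.add_mem (H.smul_mem _ hu.2) (H.smul_mem _ hw.2)⟩
  have hq := hH (u - w) (H.sub_mem hu.2 hw.2)
  obtain ⟨⟨hu0, hu1⟩, -⟩ := hu
  obtain ⟨⟨hw0, hw1⟩, -⟩ := hw
  have hb' : b = 1 - a := by linarith
  constructor
  · have e : (a • u + b • w : E) 0 = a * u 0 + b * w 0 := by simp
    rw [e]
    calc |a * u 0 + b * w 0| ≤ |a * u 0| + |b * w 0| := abs_add_le _ _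
      _ = a * |u 0| + b * |w 0| := by rw [abs_mul, abs_mul, abs_of_nonneg ha, abs_of_nonneg hb]
      _ ≤ 1 := by nlinarith
  · have e : ∀ i, (a • u + b • w : E) i = a * u i + b * w i := by intro i; simp
    simp only [e]
    have h1 : |a * u 1 + b * w 1| ≤ a * |u 1| + b * |w 1| := by
      calc |a * u 1 + b * w 1| ≤ |a * u 1| + |b * w 1| := abs_add_le _ _
        _ = a * |u 1| + b * |w 1| := by rw [abs_mul, abs_mul, abs_of_nonneg ha, abs_of_nonneg hb]
    have e2 : ∀ i, (u - w : E) i = u i - w i := by intro i; simp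
    simp only [e2] at hq
    have h2 := mul_le_mul_of_nonneg_left hu1 ha
    have h3 := mul_le_mul_of_nonneg_left hw1 hb
    have h4 := mul_le_mul_of_nonneg_left hq (mul_nonneg ha hb)
    subst hb'
    nlinarith

/-- thin pairs -/
def A (N : ℕ) (k : ℤ) : Set (E × E) :=
  {p | (∀ i, |p.1 i| ≤ 2) ∧ (∀ i, |p.2 i| ≤ 2) ∧
    ∀ i : Fin 6, 2 ≤ i → |p.1 i + ((k : ℝ) / N) * p.2 i| ≤ 3 / N}

lemma thin_half (N : ℕ) (hN : 0 < N) (x y : E) (b : ℝ) (hb : |b| ≤ 1)
    (hx : ∀ i, |x i| ≤ 2) (hy : ∀ i, |y i| ≤ 2) (hx0 : |x 0| ≤ 1) (hy0 : |y 0| ≤ 1)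
    (h : (x 2 + b * y 2) ^ 2 + (x 3 + b * y 3) ^ 2 + (x 4 + b * y 4) ^ 2 + (x 5 + b * y 5) ^ 2 <
      (1 / (4 * (N:ℝ) ^ 2)) * (x 0 + b * y 0) ^ 2) :
    ∃ k ∈ Finset.Icc (-(N:ℤ)) N, (x, y) ∈ A N k := by
  have hN' : (0:ℝ) < N := by exact_mod_cast hN
  have h1 : |x 0 + b * y 0| ≤ 2 := by
    calc |x 0 + b * y 0| ≤ |x 0| + |b * y 0| := abs_add_le _ _
      _ = |x 0| + |b| * |y 0| := by rw [abs_mul]
      _ ≤ 2 := by nlinarith [abs_nonneg (y 0), abs_nonneg b]
  have h2 : (x 0 + b * y 0) ^ 2 ≤ 4 := by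
    rw [← sq_abs]
    nlinarith [abs_nonneg (x 0 + b * y 0)]
  have h3 : (1 / (4 * (N:ℝ) ^ 2)) * (x 0 + b * y 0) ^ 2 ≤ (1 / N) ^ 2 := by
    rw [one_div_mul_eq_div, div_pow, one_pow, div_le_div_iff₀ (by positivity) (by positivity)]
    have : (0:ℝ) < N ^ 2 := by positivity
    nlinarith
  have h4 : ∀ i : Fin 6, 2 ≤ i → |x i + b * y i| ≤ 1 / N := by
    have aux : ∀ z : ℝ, z ^ 2 ≤ (1 / (N:ℝ)) ^ 2 → |z| ≤ 1 / N := by
      intro z hz
      exact abs_le_of_sq_le_sq hz (by positivity)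
    intro i hi
    apply aux
    fin_cases i
    · simp at hi
    · simp at hi
    · show (x 2 + b * y 2) ^ 2 ≤ _
      nlinarith [sq_nonneg (x 2 + b * y 2), sq_nonneg (x 3 + b * y 3), sq_nonneg (x 4 + b * y 4),
        sq_nonneg (x 5 + b * y 5)]
    · show (x 3 + b * y 3) ^ 2 ≤ _
      nlinarith [sq_nonneg (x 2 + b * y 2), sq_nonneg (x 3 + b * y 3), sq_nonneg (x 4 + b * y 4),
        sq_nonneg (x 5 + b * y 5)]
    · show (x 4 + b * y 4) ^ 2 ≤ _
      nlinarith [sq_nonneg (x 2 + b * y 2), sq_nonneg (x 3 + b * y 3), sq_nonneg (x 4 + b * y 4),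
        sq_nonneg (x 5 + b * y 5)]
    · show (x 5 + b * y 5) ^ 2 ≤ _
      nlinarith [sq_nonneg (x 2 + b * y 2), sq_nonneg (x 3 + b * y 3), sq_nonneg (x 4 + b * y 4),
        sq_nonneg (x 5 + b * y 5)]
  obtain ⟨hb1, hb2⟩ := abs_le.mp hb
  refine ⟨⌊b * N⌋, ?_, hx, hy, ?_⟩
  · rw [Finset.mem_Icc]
    constructor
    · rw [Int.le_floor]
      push_cast
      nlinarith
    · have : (⌊b * N⌋ : ℝ) ≤ N := (Int.floor_le _).trans (by nlinarith)
      exact_mod_cast this
  · intro i hi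
    have h5 := h4 i hi
    have h6 : |b - (⌊b * N⌋ : ℝ) / N| ≤ 1 / N := by
      have e : b - (⌊b * N⌋ : ℝ) / N = (b * N - ⌊b * N⌋) / N := by field_simp
      rw [e, abs_div, abs_of_pos hN']
      apply div_le_div_of_nonneg_right _ hN'.le
      have f1 := Int.floor_le (b * N)
      have f2 := Int.lt_floor_add_one (b * N)
      rw [abs_le]
      constructor <;> linarith
    have e : x i + (⌊b * N⌋ : ℝ) / N * y i = (x i + b * y i) - (b - (⌊b * N⌋ : ℝ) / N) * y i := by
      ring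
    rw [e]
    have h7 : |(b - (⌊b * N⌋ : ℝ) / N) * y i| ≤ 1 / N * 2 := by
      rw [abs_mul]
      exact mul_le_mul h6 (hy i) (abs_nonneg _) (by positivity)
    have h8 := abs_sub (x i + b * y i) ((b - (⌊b * N⌋ : ℝ) / N) * y i)
    calc _ ≤ _ := h8
      _ ≤ 1 / N + 1 / N * 2 := add_le_add h5 h7
      _ = 3 / N := by ring

lemma beta_bds (N : ℕ) (hN : 0 < N) : 0 ≤ 1 / (4 * (N:ℝ) ^ 2) ∧ 1 / (4 * (N:ℝ) ^ 2) ≤ 1 := by
  have hN' : (1:ℝ) ≤ N := by exact_mod_cast hN
  constructor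
  · positivity
  · rw [div_le_one (by positivity)]
    nlinarith

lemma bad_subset (N : ℕ) (hN : 0 < N) :
    {p : E × E | p.1 ∈ S (1 / (4 * (N:ℝ) ^ 2)) ∧ p.2 ∈ S (1 / (4 * (N:ℝ) ^ 2)) ∧
      ¬ Convex ℝ (S (1 / (4 * (N:ℝ) ^ 2)) ∩ (Submodule.span ℝ {p.1, p.2} : Set E))} ⊆
    ⋃ k ∈ Finset.Icc (-(N:ℤ)) N, (A N k ∪ Prod.swap ⁻¹' (A N k)) := by
  rintro ⟨x, y⟩ ⟨hx, hy, hc⟩
  simp only at hx hy hc
  obtain ⟨hb0, hb1⟩ := beta_bds N hN
  have hxb := S_bdd hb0 hb1 hx
  have hyb := S_bdd hb0 hb1 hy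
  have : ∃ v ∈ Submodule.span ℝ {x, y}, v 2 ^ 2 + v 3 ^ 2 + v 4 ^ 2 + v 5 ^ 2 <
      (1 / (4 * (N:ℝ) ^ 2)) * v 0 ^ 2 := by
    by_contra hcon
    push Not at hcon
    exact hc (convex_section _ hcon)
  obtain ⟨v, hv, hv2⟩ := this
  rw [Submodule.mem_span_pair] at hv
  obtain ⟨a, b, rfl⟩ := hv
  have e : ∀ i, (a • x + b • y : E) i = a * x i + b * y i := by intro i; simp
  simp only [e] at hv2
  rcases le_total |b| |a| with hab | hab
  · have ha : a ≠ 0 := by
      rintro rfl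
      have : b = 0 := by simpa using hab
      subst this
      simp at hv2
    have ha' : 0 < a ^ 2 := by positivity
    obtain ⟨k, hk, hkA⟩ := thin_half N hN x y (b / a) (by
      rw [abs_div]; exact div_le_one_of_le₀ hab (abs_nonneg _)) hxb hyb hx.1 hy.1 (by
      have e2 : ∀ i, a * x i + b * y i = a * (x i + b / a * y i) := by
        intro i; field_simp
      simp only [e2] at hv2
      have : a ^ 2 * ((x 2 + b / a * y 2) ^ 2 + (x 3 + b / a * y 3) ^ 2 + (x 4 + b / a * y 4) ^ 2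
        + (x 5 + b / a * y 5) ^ 2) < a ^ 2 * ((1 / (4 * (N:ℝ) ^ 2)) * (x 0 + b / a * y 0) ^ 2) := by
        calc _ = _ := by ring
          _ < _ := hv2
          _ = _ := by ring
      exact lt_of_mul_lt_mul_left this ha'.le)
    simp only [mem_iUnion]
    exact ⟨k, hk, Or.inl hkA⟩
  · have hb : b ≠ 0 := by
      rintro rfl
      have : a = 0 := by simpa using hab
      subst this
      simp at hv2
    have hb' : 0 < b ^ 2 := by positivity
    obtain ⟨k, hk, hkA⟩ := thin_half N hN y x (a / b) (by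
      rw [abs_div]; exact div_le_one_of_le₀ hab (abs_nonneg _)) hyb hxb hy.1 hx.1 (by
      have e2 : ∀ i, a * x i + b * y i = b * (y i + a / b * x i) := by
        intro i; field_simp; ring
      simp only [e2] at hv2
      have : b ^ 2 * ((y 2 + a / b * x 2) ^ 2 + (y 3 + a / b * x 3) ^ 2 + (y 4 + a / b * x 4) ^ 2
        + (y 5 + a / b * x 5) ^ 2) < b ^ 2 * ((1 / (4 * (N:ℝ) ^ 2)) * (y 0 + a / b * x 0) ^ 2) := by
        calc _ = _ := by ring
          _ < _ := hv2
          _ = _ := by ring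
      exact lt_of_mul_lt_mul_left this hb'.le)
    simp only [mem_iUnion]
    exact ⟨k, hk, Or.inr hkA⟩


lemma A_closed (N : ℕ) (k : ℤ) : IsClosed (A N k) := by
  have h1 : IsClosed {p : E × E | ∀ i, |p.1 i| ≤ 2} := by
    simp only [Set.ofPred_forall]
    exact isClosed_iInter fun i => isClosed_le (by fun_prop) (by fun_prop)
  have h2 : IsClosed {p : E × E | ∀ i, |p.2 i| ≤ 2} := by
    simp only [Set.ofPred_forall]
    exact isClosed_iInter fun i => isClosed_le (by fun_prop) (by fun_prop)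
  have h3 : IsClosed {p : E × E | ∀ i : Fin 6, 2 ≤ i → |p.1 i + ((k : ℝ) / N) * p.2 i| ≤ 3 / N} := by
    simp only [Set.ofPred_forall]
    exact isClosed_iInter fun i => isClosed_iInter fun _ =>
      isClosed_le (by fun_prop) (by fun_prop)
  exact h1.inter (h2.inter h3)

lemma vol_A (N : ℕ) (hN : 0 < N) (k : ℤ) :
    (volume.prod volume) (A N k) ≤ ENNReal.ofReal (4 ^ 8 * 6 ^ 4 / N ^ 4) := by
  have hN' : (0:ℝ) < N := by exact_mod_cast hN
  rw [Measure.prod_apply_symm (A_closed N k).measurableSet]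
  have hbox : volume {x : E | ∀ i, (-2:ℝ) ≤ x i ∧ x i ≤ 2} = ENNReal.ofReal (4 ^ 6) := by
    rw [vol_box (fun _ => -2) (fun _ => 2)]
    rw [Finset.prod_const, ← ENNReal.ofReal_pow (by norm_num)]
    norm_num
  have hmb : MeasurableSet {x : E | ∀ i, (-2:ℝ) ≤ x i ∧ x i ≤ 2} := by
    apply IsClosed.measurableSet
    simp only [Set.ofPred_forall]
    refine isClosed_iInter fun i => ?_
    have h1 : IsClosed {x : E | (-2:ℝ) ≤ x i} := isClosed_le (by fun_prop) (by fun_prop)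
    have h2 : IsClosed {x : E | x i ≤ (2:ℝ)} := isClosed_le (by fun_prop) (by fun_prop)
    exact h1.inter h2
  calc ∫⁻ y, volume ((fun x => (x, y)) ⁻¹' A N k) ∂(volume : Measure E)
      ≤ ∫⁻ y, {x : E | ∀ i, (-2:ℝ) ≤ x i ∧ x i ≤ 2}.indicator
        (fun _ => ENNReal.ofReal (4 ^ 2 * (6 / N) ^ 4)) y ∂(volume : Measure E) := by
        apply lintegral_mono
        intro y
        by_cases hy : y ∈ {x : E | ∀ i, (-2:ℝ) ≤ x i ∧ x i ≤ 2}
        · simp only [indicator_of_mem hy]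
          have : ((fun x => (x, y)) ⁻¹' A N k) ⊆ {x : E | ∀ i,
              (fun i : Fin 6 => if 2 ≤ i then -((k:ℝ) / N * y i) - 3 / N else -2) i ≤ x i ∧
              x i ≤ (fun i : Fin 6 => if 2 ≤ i then -((k:ℝ) / N * y i) + 3 / N else 2) i} := by
            rintro x ⟨hx1, -, hx3⟩ i
            simp only at hx1 hx3 ⊢
            split_ifs with h
            · have := abs_le.mp (hx3 i h)
              constructor <;> linarith
            · exact abs_le.mp (hx1 i)
          refine (measure_mono this).trans ?_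
          rw [vol_box]
          apply le_of_eq
          rw [← ENNReal.ofReal_prod_of_nonneg]
          · congr 1
            have : ∀ i : Fin 6, ((fun i : Fin 6 => if 2 ≤ i then -((k:ℝ) / N * y i) + 3 / N else 2) i -
              (fun i : Fin 6 => if 2 ≤ i then -((k:ℝ) / N * y i) - 3 / N else -2) i) =
              if 2 ≤ i then (6:ℝ) / N else 4 := by
              intro i
              simp only
              split_ifs <;> ring
            simp only [this]
            rw [Fin.prod_univ_six]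
            rw [if_neg (by decide), if_neg (by decide), if_pos (by decide), if_pos (by decide),
              if_pos (by decide), if_pos (by decide)]
            ring
          · intro i _
            simp only
            split_ifs
            · have : (0:ℝ) < 3 / N := by positivity
              linarith
            · norm_num
        · simp only [indicator_of_notMem hy]
          have : ((fun x => (x, y)) ⁻¹' A N k) = ∅ := by
            rw [eq_empty_iff_forall_notMem]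
            rintro x ⟨-, hx2, -⟩
            exact hy fun i => abs_le.mp (hx2 i)
          rw [this]
          simp
    _ = ENNReal.ofReal (4 ^ 2 * (6 / N) ^ 4) * ENNReal.ofReal (4 ^ 6) := by
        rw [lintegral_indicator_const hmb, hbox]
    _ = _ := by
        rw [← ENNReal.ofReal_mul (by positivity)]
        congr 1
        ring

lemma two_mul_add_zero_aux (x : ENNReal) : ENNReal.ofReal 2 * x = x + x := by
  rw [ENNReal.ofReal_ofNat, two_mul]

lemma vol_bad (N : ℕ) (hN : 0 < N) :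
    (volume.prod volume) {p : E × E | p.1 ∈ S (1 / (4 * (N:ℝ) ^ 2)) ∧
      p.2 ∈ S (1 / (4 * (N:ℝ) ^ 2)) ∧
      ¬ Convex ℝ (S (1 / (4 * (N:ℝ) ^ 2)) ∩ (Submodule.span ℝ {p.1, p.2} : Set E))} ≤
    ENNReal.ofReal (4 ^ 8 * 6 ^ 5 / N ^ 3) := by
  have hN' : (1:ℝ) ≤ N := by exact_mod_cast hN
  refine (measure_mono (bad_subset N hN)).trans ?_
  refine (measure_biUnion_finset_le _ _).trans ?_
  have h1 : ∀ k ∈ Finset.Icc (-(N:ℤ)) N, (volume.prod volume) (A N k ∪ Prod.swap ⁻¹' (A N k)) ≤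
      ENNReal.ofReal (2 * (4 ^ 8 * 6 ^ 4 / N ^ 4)) := by
    intro k _
    refine (measure_union_le _ _).trans ?_
    have h2 : (volume.prod volume) (Prod.swap ⁻¹' (A N k)) = (volume.prod volume) (A N k) := by
      have := (Measure.measurePreserving_swap (μ := (volume : Measure E)) (ν := (volume : Measure E)))
      exact this.measure_preimage (A_closed N k).measurableSet.nullMeasurableSet
    rw [h2, ENNReal.ofReal_mul (by norm_num), two_mul_add_zero_aux]
    have := vol_A N hN k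
    exact add_le_add this this
  refine (Finset.sum_le_sum h1).trans ?_
  rw [Finset.sum_const, Int.card_Icc, nsmul_eq_mul]
  have h3 : ((N:ℤ) + 1 - -(N:ℤ)).toNat = 2 * N + 1 := by omega
  rw [h3, ← ENNReal.ofReal_natCast, ← ENNReal.ofReal_mul (by positivity)]
  apply ENNReal.ofReal_le_ofReal
  push_cast
  rw [show (2 * (N:ℝ) + 1) * (2 * (4 ^ 8 * 6 ^ 4 / N ^ 4)) =
    ((2 * (N:ℝ) + 1) * (2 * (4 ^ 8 * 6 ^ 4))) / N ^ 4 by ring]
  rw [div_le_div_iff₀ (by positivity) (by positivity)]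
  have : (0:ℝ) < N ^ 3 := by positivity
  have h5 : (2 * (N:ℝ) + 1) * 2 ≤ 6 * N := by linarith
  nlinarith [mul_le_mul_of_nonneg_right h5 this.le]


/-- translate in a coordinate direction -/
lemma vol_shift (A : Set E) (g : E) : volume ((fun x => x + g) ⁻¹' A) = volume A :=
  measure_preimage_add_right volume g A

/-- the shell piece -/
def R (β : ℝ) : Set E :=
  {x | 1 / 2 ≤ x 0 ∧ x 0 ≤ 1 ∧ 1 + β / 16 < |x 1| + (x 2 ^ 2 + x 3 ^ 2 + x 4 ^ 2 + x 5 ^ 2) ∧
    |x 1| + (x 2 ^ 2 + x 3 ^ 2 + x 4 ^ 2 + x 5 ^ 2) ≤ 1 + β / 4}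

lemma far_from_convex {β : ℝ} (hβ : 0 ≤ β) (C : Set E) (hC : Convex ℝ C) :
    volume (R β) ≤ 3 * volume (symmDiff (S β) C) := by
  set L : E := EuclideanSpace.single 0 (-(3/2 : ℝ)) with hL
  set M : E := EuclideanSpace.single 0 (-(3/4 : ℝ)) with hM
  have hL0 : ∀ x : E, (x + L) 0 = x 0 - 3/2 := by
    intro x; simp [hL]; ring
  have hM0 : ∀ x : E, (x + M) 0 = x 0 - 3/4 := by
    intro x; simp [hM]; ring
  have hLi : ∀ (x : E) (i : Fin 6), i ≠ 0 → (x + L) i = x i := by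
    intro x i hi; simp [hL, hi]
  have hMi : ∀ (x : E) (i : Fin 6), i ≠ 0 → (x + M) i = x i := by
    intro x i hi; simp [hM, hi]
  have hsub : R β ⊆ symmDiff (S β) C ∪ ((fun x => x + L) ⁻¹' (symmDiff (S β) C) ∪
      (fun x => x + M) ⁻¹' (symmDiff (S β) C)) := by
    intro x hx
    obtain ⟨h1, h2, h3, h4⟩ := hx
    have hxS : x ∈ S β := by
      refine ⟨abs_le.mpr ⟨by linarith, h2⟩, h4.trans ?_⟩
      nlinarith [mul_nonneg hβ (show (0:ℝ) ≤ x 0 ^ 2 - 1/4 by nlinarith)]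
    have hxL : x + L ∈ S β := by
      refine ⟨?_, ?_⟩
      · rw [hL0]
        exact abs_le.mpr ⟨by linarith, by linarith⟩
      · rw [hL0, hLi _ _ (by decide), hLi _ _ (by decide), hLi _ _ (by decide),
          hLi _ _ (by decide), hLi _ _ (by decide)]
        refine h4.trans ?_
        nlinarith [mul_nonneg hβ (show (0:ℝ) ≤ (x 0 - 3/2) ^ 2 - 1/4 by nlinarith)]
    have hxM : x + M ∉ S β := by
      rintro ⟨-, h5⟩
      rw [hM0, hMi _ _ (by decide), hMi _ _ (by decide), hMi _ _ (by decide),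
          hMi _ _ (by decide), hMi _ _ (by decide)] at h5
      nlinarith [mul_nonneg hβ (show (0:ℝ) ≤ 1/16 - (x 0 - 3/4) ^ 2 by nlinarith)]
    by_cases hc1 : x ∈ C
    · by_cases hc2 : x + L ∈ C
      · right; right
        have hmid : x + M ∈ C := by
          have := hC hc1 hc2 (show (0:ℝ) ≤ 1/2 by norm_num) (show (0:ℝ) ≤ 1/2 by norm_num)
            (by norm_num)
          have e : (1/2 : ℝ) • x + (1/2 : ℝ) • (x + L) = x + M := by
            have : M = (1/2 : ℝ) • L := by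
              rw [hL, hM]
              ext i
              by_cases hi : i = 0
              · subst hi; simp; norm_num
              · simp [hi]
            rw [this]
            module
          rwa [e] at this
        exact Or.inr ⟨hmid, hxM⟩
      · right; left
        exact Or.inl ⟨hxL, hc2⟩
    · left
      exact Or.inl ⟨hxS, hc1⟩
  calc volume (R β) ≤ _ := measure_mono hsub
    _ ≤ volume (symmDiff (S β) C) + (volume ((fun x => x + L) ⁻¹' (symmDiff (S β) C)) +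
      volume ((fun x => x + M) ⁻¹' (symmDiff (S β) C))) :=
        (measure_union_le _ _).trans (by gcongr; exact measure_union_le _ _)
    _ = 3 * volume (symmDiff (S β) C) := by
        rw [vol_shift, vol_shift]; ring

lemma vol_R (N : ℕ) (hN : 0 < N) :
    ENNReal.ofReal (1 / 64) ≤ (44 * N ^ 2 : ℕ) * volume (R (1 / (4 * (N:ℝ) ^ 2))) := by
  have hN' : (1:ℝ) ≤ N := by exact_mod_cast hN
  have hN2 : (0:ℝ) < N ^ 2 := by positivity
  set β := 1 / (4 * (N:ℝ) ^ 2) with hβ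
  have hβ0 : 0 < β := by positivity
  have hβ1 : β ≤ 1 := (beta_bds N hN).2
  set δ := 3 * β / 16 with hδ
  have hδ0 : 0 < δ := by positivity
  have hδN : δ * (64 * N ^ 2) = 3 := by
    rw [hδ, hβ]; field_simp; norm_num
  let lo : Fin 6 → ℝ := ![1/2, 0, -1/4, -1/4, -1/4, -1/4]
  let hi : Fin 6 → ℝ := ![1, 1/2, 1/4, 1/4, 1/4, 1/4]
  have hvol : volume {x : E | ∀ i, lo i ≤ x i ∧ x i ≤ hi i} = ENNReal.ofReal (1/64) := by
    rw [vol_box, ← ENNReal.ofReal_prod_of_nonneg]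
    · congr 1
      rw [Fin.prod_univ_six]
      simp [lo, hi]
      norm_num
    · intro i _
      fin_cases i <;> simp [lo, hi] <;> norm_num
  rw [← hvol]
  have hsub : {x : E | ∀ i, lo i ≤ x i ∧ x i ≤ hi i} ⊆
      ⋃ k ∈ Finset.range (44 * N ^ 2), (fun x => x + EuclideanSpace.single 1 (k * δ)) ⁻¹' (R β) := by
    intro x hx
    have h0 := hx 0
    have h1 := hx 1
    have h2 := hx 2
    have h3 := hx 3
    have h4 := hx 4
    have h5 := hx 5
    simp [lo, hi] at h0 h1 h2 h3 h4 h5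
    set s := x 2 ^ 2 + x 3 ^ 2 + x 4 ^ 2 + x 5 ^ 2 with hs
    have hs0 : 0 ≤ s := by positivity
    have hs1 : s ≤ 1 / 4 := by
      have aux : ∀ y : ℝ, -1/4 ≤ y → y ≤ 1/4 → y ^ 2 ≤ 1/16 := by
        intro y h h'; nlinarith
      have a2 := aux _ h2.1 (by linarith [h2.2])
      have a3 := aux _ h3.1 (by linarith [h3.2])
      have a4 := aux _ h4.1 (by linarith [h4.2])
      have a5 := aux _ h5.1 (by linarith [h5.2])
      linarith
    set T := 1 + β / 4 - s - x 1 with hT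
    have hT0 : 0 ≤ T := by linarith [h1.2]
    have hT2 : T ≤ 2 := by linarith [h1.1]
    obtain ⟨f1, f2⟩ : (⌊T / δ⌋₊ : ℝ) * δ ≤ T ∧ T < (⌊T / δ⌋₊ + 1 : ℝ) * δ := by
      constructor
      · have := Nat.floor_le (div_nonneg hT0 hδ0.le)
        rwa [le_div_iff₀ hδ0] at this
      · have := Nat.lt_floor_add_one (T / δ)
        rwa [div_lt_iff₀ hδ0] at this
    simp only [mem_iUnion]
    refine ⟨⌊T / δ⌋₊, ?_, ?_⟩
    · rw [Finset.mem_range]
      have : (⌊T / δ⌋₊ : ℝ) < 44 * N ^ 2 := by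
        have : (⌊T / δ⌋₊ : ℝ) * δ ≤ 2 := f1.trans hT2
        by_contra hcon
        push Not at hcon
        nlinarith
      exact_mod_cast this
    · have e1 : (x + EuclideanSpace.single 1 ((⌊T / δ⌋₊ : ℝ) * δ) : E) 1 =
          x 1 + (⌊T / δ⌋₊ : ℝ) * δ := by simp
      have ei : ∀ i : Fin 6, i ≠ 1 → (x + EuclideanSpace.single 1 ((⌊T / δ⌋₊ : ℝ) * δ) : E) i =
          x i := by intro i hi; simp [hi]
      have hnn : 0 ≤ (⌊T / δ⌋₊ : ℝ) * δ := by positivity
      have habs : |x 1 + (⌊T / δ⌋₊ : ℝ) * δ| = x 1 + (⌊T / δ⌋₊ : ℝ) * δ :=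
        abs_of_nonneg (by linarith [h1.1])
      refine ⟨?_, ?_, ?_, ?_⟩
      · rw [ei 0 (by decide)]; linarith [h0.1]
      · rw [ei 0 (by decide)]; exact h0.2
      · rw [e1, ei 2 (by decide), ei 3 (by decide), ei 4 (by decide), ei 5 (by decide), habs, ← hs]
        linarith
      · rw [e1, ei 2 (by decide), ei 3 (by decide), ei 4 (by decide), ei 5 (by decide), habs, ← hs]
        linarith
  refine (measure_mono hsub).trans ?_
  refine (measure_biUnion_finset_le _ _).trans ?_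
  simp only [vol_shift]
  rw [Finset.sum_const, Finset.card_range, nsmul_eq_mul]

lemma vol_S_lower {β : ℝ} (h0 : 0 ≤ β) : ENNReal.ofReal (1 / 64) ≤ volume (S β) := by
  have hvol : volume {x : E | ∀ i, (-1/4:ℝ) ≤ x i ∧ x i ≤ 1/4} = ENNReal.ofReal (1/64) := by
    rw [vol_box (fun _ => -1/4) (fun _ => 1/4)]
    rw [Finset.prod_const, ← ENNReal.ofReal_pow (by norm_num)]
    norm_num
  rw [← hvol]
  apply measure_mono
  intro x hx
  have aux : ∀ i, x i ^ 2 ≤ 1/16 := by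
    intro i
    have := hx i
    nlinarith [this.1, this.2]
  have h1 : ∀ i, |x i| ≤ 1/4 := by
    intro i
    have := hx i
    exact abs_le.mpr ⟨by linarith [this.1], this.2⟩
  refine ⟨by linarith [h1 0], ?_⟩
  have := mul_nonneg h0 (sq_nonneg (x 0))
  linarith [h1 1, aux 2, aux 3, aux 4, aux 5]

theorem main :
    ¬ (∃ c : ℝ, 0 < c ∧
      ∀ (n : ℕ) (S : Set (EuclideanSpace ℝ (Fin n))),
        IsCompact S → 0 < MeasureTheory.volume S →
        (∫ x in S, x ∂MeasureTheory.volume) = 0 →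
        ∀ ε : ℝ, 0 ≤ ε →
          (MeasureTheory.volume.prod MeasureTheory.volume)
              {p : EuclideanSpace ℝ (Fin n) × EuclideanSpace ℝ (Fin n) |
                p.1 ∈ S ∧ p.2 ∈ S ∧
                  ¬ Convex ℝ (S ∩ (Submodule.span ℝ {p.1, p.2} : Set (EuclideanSpace ℝ (Fin n))))}
            ≤ ENNReal.ofReal ε * MeasureTheory.volume S ^ 2 →
          ∃ C : Set (EuclideanSpace ℝ (Fin n)),
            IsCompact C ∧ Convex ℝ C ∧
              MeasureTheory.volume (symmDiff S C)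
                ≤ ENNReal.ofReal (c * (n : ℝ) * ε) * MeasureTheory.volume S) := by
  rintro ⟨c, hc, H⟩
  set K : ℝ := 4 ^ 8 * 6 ^ 5 with hK
  have hK0 : 0 < K := by positivity
  obtain ⟨N, hN⟩ := exists_nat_gt (64 * 44 * 18 * c * K * 64)
  have hN0 : (0:ℝ) < N := lt_trans (by positivity) hN
  have hNn : 0 < N := by exact_mod_cast hN0
  set β := 1 / (4 * (N:ℝ) ^ 2) with hβ
  obtain ⟨hb0, hb1⟩ := beta_bds N hNn
  have hfin : volume (S β) ≠ ⊤ := (S_compact hb0 hb1).measure_lt_top.ne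
  have hlow := vol_S_lower hb0
  set v := (volume (S β)).toReal with hv
  have hvS : volume (S β) = ENNReal.ofReal v := (ENNReal.ofReal_toReal hfin).symm
  have hv64 : 1 / 64 ≤ v := by
    rw [hvS] at hlow
    exact (ENNReal.ofReal_le_ofReal_iff ENNReal.toReal_nonneg).mp hlow
  have hv0 : 0 < v := by linarith
  have h1 := H 6 (S β) (S_compact hb0 hb1) (by rw [hvS]; exact ENNReal.ofReal_pos.mpr hv0)
    (S_centroid β) (K / N ^ 3 / v ^ 2) (by positivity) (by
      refine (vol_bad N hNn).trans ?_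
      rw [hvS, ← ENNReal.ofReal_pow hv0.le, ← ENNReal.ofReal_mul (by positivity)]
      apply ENNReal.ofReal_le_ofReal
      apply le_of_eq
      rw [hK]
      field_simp)
  obtain ⟨C, -, hC, hle⟩ := h1
  have h2 := far_from_convex hb0 C hC
  have h3 := vol_R N hNn
  rw [← hβ] at h3
  rw [hvS, ← ENNReal.ofReal_mul (by positivity)] at hle
  have h4 : ENNReal.ofReal (1 / 64) ≤
      ENNReal.ofReal ((44 * N ^ 2) * (3 * (c * (6:ℕ) * (K / N ^ 3 / v ^ 2) * v))) := by
    refine h3.trans ?_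
    rw [ENNReal.ofReal_mul (p := 44 * (N:ℝ) ^ 2) (by positivity),
      ENNReal.ofReal_mul (p := 3) (by norm_num)]
    have e1 : ENNReal.ofReal (44 * (N:ℝ) ^ 2) = ((44 * N ^ 2 : ℕ) : ENNReal) := by
      rw [← ENNReal.ofReal_natCast]; push_cast; rfl
    rw [e1]
    have e2 : ENNReal.ofReal 3 = 3 := ENNReal.ofReal_ofNat 3
    rw [e2]
    gcongr
    exact h2.trans (by gcongr)
  rw [ENNReal.ofReal_le_ofReal_iff (by positivity)] at h4
  have h5 : (44 * (N:ℝ) ^ 2) * (3 * (c * (6:ℕ) * (K / N ^ 3 / v ^ 2) * v)) =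
      (44 * 18 * c * K) / (N * v) := by
    push_cast
    field_simp
    ring
  rw [h5, le_div_iff₀ (by positivity)] at h4
  have h6 : (1:ℝ) / 64 * (N * (1 / 64)) ≤ 1 / 64 * (N * v) := by gcongr
  nlinarith

end Pool.Agent.Sect
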